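import Pool.Agent.H91.PH.Main2

/-!
MP_8bdf74_an: invariant extension of dual pairs for algebras whose group of exponentials is bounded
modulo the strong closure of the radical.
-/

set_option autoImplicit false

open scoped InnerProductSpace

namespace Pool.Agent.Results.MP_8bdf74_an.BoundedModRadical

variable {H : Type} [NormedAddCommGroup H] [InnerProductSpace ℂ H]

/-- The indefinite form `I(f, g) = (E f, g) - ((1 - E) f, g)`. -/
noncomputable def form (E : H →L[ℂ] H) (f g : H) : ℂ := ⟪E f, g⟫_ℂ - ⟪(1 - E) f, g⟫_ℂ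

/-- `b` is the adjoint of `a` with respect to the form. -/
def IsAdj (E a b : H →L[ℂ] H) : Prop := ∀ f g : H, form E (a f) g = form E f (b g)

/-- `R` is an ideal of `A`, it contains `c` whenever it contains `c' c`, where `c` and its adjoint
`c'` are in `A`, and it is strongly closed in `A`: it contains every `a` in `A` such that `a x` is a
limit of elements `r x` with `r` in `R`, for every `x`. -/
structure IsRadical (E : H →L[ℂ] H) (A : Subalgebra ℂ (H →L[ℂ] H)) (R : Set (H →L[ℂ] H)) :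
    Prop where
  zero : 0 ∈ R
  add : ∀ a ∈ R, ∀ b ∈ R, a + b ∈ R
  mul : ∀ a ∈ A, ∀ b ∈ R, a * b ∈ R
  root : ∀ c ∈ A, ∀ c' ∈ A, IsAdj E c c' → c' * c ∈ R → c ∈ R
  lim : ∀ a ∈ A, (∀ x : H, a x ∈ closure {y | ∃ r ∈ R, y = r x}) → a ∈ R

/-- The radical of `A`: the intersection of all sets `R` as in `IsRadical`. -/
def InRadical (E : H →L[ℂ] H) (A : Subalgebra ℂ (H →L[ℂ] H)) (a : H →L[ℂ] H) : Prop :=
  ∀ R : Set (H →L[ℂ] H), IsRadical E A R → a ∈ R

/-- Every dual pair `N`, `P` which is invariant under `A` is contained in a maximal dual pair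
`N'`, `P'` which is invariant under `A`. -/
def HasExtensions (E : H →L[ℂ] H) (A : Subalgebra ℂ (H →L[ℂ] H)) : Prop :=
  ∀ (N P : Submodule ℂ H),
    (∀ x ∈ P, 0 ≤ (form E x x).re) →
    (∀ y ∈ N, (form E y y).re ≤ 0) →
    (∀ x ∈ P, ∀ y ∈ N, form E x y = 0) →
    (∀ a ∈ A, ∀ x ∈ N, a x ∈ N) →
    (∀ a ∈ A, ∀ x ∈ P, a x ∈ P) →
    ∃ N' P' : Submodule ℂ H, N ≤ N' ∧ P ≤ P' ∧
      (∀ x ∈ P', 0 ≤ (form E x x).re) ∧
      (∀ y ∈ N', (form E y y).re ≤ 0) ∧
      (∀ y : H, y ∈ N' ↔ ∀ x ∈ P', form E x y = 0) ∧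
      (∀ x : H, x ∈ P' ↔ ∀ y ∈ N', form E x y = 0) ∧
      (∀ a ∈ A, ∀ x ∈ N', a x ∈ N') ∧
      (∀ a ∈ A, ∀ x ∈ P', a x ∈ P')

lemma form_eq (E : H →L[ℂ] H) (f g : H) :
    form E f g = Pool.Agent.H91.PH.fm (Pool.Agent.H91.PH.Jm E) f g :=
  (Pool.Agent.H91.PH.fm_Jm E f g).symm

lemma isAdj_iff (E a b : H →L[ℂ] H) : IsAdj E a b ↔
    ∀ f g : H, Pool.Agent.H91.PH.fm (Pool.Agent.H91.PH.Jm E) (a f) g =
      Pool.Agent.H91.PH.fm (Pool.Agent.H91.PH.Jm E) f (b g) := by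
  unfold IsAdj
  simp only [form_eq]

lemma isRadical_iff (E : H →L[ℂ] H) (A : Subalgebra ℂ (H →L[ℂ] H)) (R : Set (H →L[ℂ] H)) :
    IsRadical E A R ↔ Pool.Agent.H91.PH.IsRad (Pool.Agent.H91.PH.Jm E) A R := by
  constructor
  · intro h
    exact ⟨h.zero, h.add, h.mul, fun c hc c' hc' hs => h.root c hc c' hc' ((isAdj_iff _ _ _).mpr hs),
      h.lim⟩
  · intro h
    exact ⟨h.zero, h.add, h.mul, fun c hc c' hc' hs => h.root c hc c' hc' ((isAdj_iff _ _ _).mp hs),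
      h.lim⟩

lemma inRadical_iff (E : H →L[ℂ] H) (A : Subalgebra ℂ (H →L[ℂ] H)) (a : H →L[ℂ] H) :
    InRadical E A a ↔ Pool.Agent.H91.PH.Rad (Pool.Agent.H91.PH.Jm E) A a := by
  unfold InRadical Pool.Agent.H91.PH.Rad
  simp only [isRadical_iff]

lemma hasExtensions_of (E : H →L[ℂ] H) (A : Subalgebra ℂ (H →L[ℂ] H))
    (h : ∀ N P : Submodule ℂ H, Pool.Agent.H91.PH.Dual (Pool.Agent.H91.PH.Jm E) A N P →
      Pool.Agent.H91.PH.Solvable (Pool.Agent.H91.PH.Jm E) A N P) : HasExtensions E A := by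
  intro N P h1 h2 h3 h4 h5
  simp only [form_eq] at h1 h2 h3 ⊢
  exact h N P ⟨h1, h2, h3, h4, h5⟩

/-- Let `A` be a commutative algebra of bounded operators which is closed under adjoints with
respect to the form.  If the operators `exp (i s)`, `s` a self-adjoint element of `A`, are bounded
modulo the strong closure of the radical of `A`, then every invariant dual pair is contained in an
invariant maximal dual pair. -/
theorem result (H : Type) [NormedAddCommGroup H] [InnerProductSpace ℂ H] [CompleteSpace H]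
    (E : H →L[ℂ] H) (hE : E * E = E) (hE' : star E = E) (A : Subalgebra ℂ (H →L[ℂ] H))
    (hc : ∀ a ∈ A, ∀ b ∈ A, a * b = b * a) (hA : ∀ a ∈ A, ∃ b ∈ A, IsAdj E a b)
    (hb : ∃ C : ℝ, ∀ s ∈ A, IsAdj E s s → ∃ r : H →L[ℂ] H,
      (∀ x : H, r x ∈ closure {y | ∃ r', InRadical E A r' ∧ y = r' x}) ∧
      ‖NormedSpace.exp (Complex.I • s) + r‖ ≤ C) : HasExtensions E A := by
  have hA' : Pool.Agent.H91.PH.Symm (Pool.Agent.H91.PH.Jm E) A := by
    intro a ha
    obtain ⟨b, hb, hab⟩ := hA a ha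
    exact ⟨b, hb, (isAdj_iff _ _ _).mp hab⟩
  obtain ⟨C, hC⟩ := hb
  refine hasExtensions_of E A fun N P h => ?_
  refine Pool.Agent.H91.PH.main_exp hE hE' hc hA' (C := C) ?_ h
  intro s hs hsa
  obtain ⟨r, hr, hrC⟩ := hC s hs ((isAdj_iff _ _ _).mpr hsa)
  refine ⟨r, ?_, hrC⟩
  simpa only [inRadical_iff] using hr

end Pool.Agent.Results.MP_8bdf74_an.BoundedModRadical
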