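import Pool.Agent.H25.PH.Cut

/-!
MP_8bdf74_an: the theorem of Pontryagin and Naimark for spaces whose negative part has an infinite
dimension `κ`: every invariant dual pair is contained in an invariant dual pair `N'`, `P'` such
that the orthogonal complement of `P'` has dimension at most `κ`.
-/

set_option autoImplicit false

open scoped InnerProductSpace

namespace Pool.Agent.Results.MP_8bdf74_an.InfinitePontryagin

variable {H : Type} [NormedAddCommGroup H] [InnerProductSpace ℂ H]

/-- The indefinite form `I(f, g) = (E f, g) - ((1 - E) f, g)`. -/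
noncomputable def form (E : H →L[ℂ] H) (f g : H) : ℂ := ⟪E f, g⟫_ℂ - ⟪(1 - E) f, g⟫_ℂ

/-- `N`, `P` is a dual pair (`P` positive, `N` negative, `I(P, N) = 0`), and both subspaces are
invariant under `A`. -/
structure InvariantPair (E : H →L[ℂ] H) (A : Subalgebra ℂ (H →L[ℂ] H)) (N P : Submodule ℂ H) :
    Prop where
  pos : ∀ x ∈ P, 0 ≤ (form E x x).re
  neg : ∀ y ∈ N, (form E y y).re ≤ 0
  orth : ∀ x ∈ P, ∀ y ∈ N, form E x y = 0
  invN : ∀ a ∈ A, ∀ x ∈ N, a x ∈ N
  invP : ∀ a ∈ A, ∀ x ∈ P, a x ∈ P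

lemma form_eq (E : H →L[ℂ] H) (f g : H) :
    form E f g = Pool.Agent.H91.PH.fm (Pool.Agent.H91.PH.Jm E) f g :=
  (Pool.Agent.H91.PH.fm_Jm E f g).symm

lemma pair_iff (E : H →L[ℂ] H) (A : Subalgebra ℂ (H →L[ℂ] H)) (N P : Submodule ℂ H) :
    InvariantPair E A N P ↔
      Pool.Agent.H91.PH.Dual (Pool.Agent.H91.PH.Jm E) (A : Set (H →L[ℂ] H)) N P := by
  constructor
  · intro h
    refine ⟨?_, ?_, ?_, h.invN, h.invP⟩
    · simpa only [form_eq] using h.pos
    · simpa only [form_eq] using h.neg
    · simpa only [form_eq] using h.orth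
  · intro h
    refine ⟨?_, ?_, ?_, h.invN, h.invP⟩
    · simpa only [form_eq] using h.pos
    · simpa only [form_eq] using h.neg
    · simpa only [form_eq] using h.orth

/-- Let `A` be a commutative algebra of bounded operators which is closed under adjoints with
respect to the form, and let the range of `1 - E` be contained in the closed span of a set `D`.
Then every invariant dual pair `N`, `P` is contained in an invariant dual pair `N'`, `P'` such that
the orthogonal complement of `P'` with respect to the form is contained in the closure of a set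
whose cardinality is at most the maximum of `ℵ₀` and the cardinality of `D`. -/
theorem result (H : Type) [NormedAddCommGroup H] [InnerProductSpace ℂ H] [CompleteSpace H]
    (E : H →L[ℂ] H) (hE : E * E = E) (hE' : star E = E) (A : Subalgebra ℂ (H →L[ℂ] H))
    (hc : ∀ a ∈ A, ∀ b ∈ A, a * b = b * a)
    (hA : ∀ a ∈ A, ∃ b ∈ A, ∀ f g : H, form E (a f) g = form E f (b g))
    (D : Set H) (hD : ∀ x : H, (1 - E) x ∈ (Submodule.span ℂ D).topologicalClosure)
    (N P : Submodule ℂ H) (h : InvariantPair E A N P) :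
    ∃ N' P' : Submodule ℂ H, N ≤ N' ∧ P ≤ P' ∧ InvariantPair E A N' P' ∧
      ∃ D' : Set H, Cardinal.mk D' ≤ max Cardinal.aleph0 (Cardinal.mk D) ∧
        ∀ y : H, (∀ x ∈ P', form E x y = 0) → y ∈ closure D' := by
  have hA' : Pool.Agent.H91.PH.Symm (Pool.Agent.H91.PH.Jm E) A := by
    intro a ha
    obtain ⟨b, hb, hab⟩ := hA a ha
    exact ⟨b, hb, fun f g => by rw [← form_eq, ← form_eq, hab]⟩
  obtain ⟨N', P', h1, h2, h3⟩ := Pool.Agent.H91.PH.exists_maxDual ((pair_iff E A N P).mp h)
  have hκ : Cardinal.aleph0 ≤ max Cardinal.aleph0 (Cardinal.mk D) := le_max_left _ _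
  have hD' : Pool.Agent.H25.PH.Sm (max Cardinal.aleph0 (Cardinal.mk D)) D :=
    Pool.Agent.H25.PH.Sm.of_card (le_max_right _ _)
  have hF : Pool.Agent.H25.PH.Sm (max Cardinal.aleph0 (Cardinal.mk D))
      (Set.range (1 - E : H →L[ℂ] H)) := by
    refine (hD'.span hκ).mono ?_
    rintro _ ⟨x, rfl⟩
    exact hD x
  obtain ⟨D', h4, h5⟩ := Pool.Agent.H25.PH.maxDual_small hE hE' hc hA' hκ hF h3
  refine ⟨N', P', h1, h2, (pair_iff E A N' P').mpr h3.toDual, D', h4, ?_⟩
  intro y hy
  refine h5 ?_
  intro x hx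
  rw [← form_eq]
  exact hy x hx

end Pool.Agent.Results.MP_8bdf74_an.InfinitePontryagin
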