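import Pool.Agent.H91.PH.Red

/-!
MP_8bdf74_an: the extension problem for invariant dual pairs is equivalent to the existence of one
nonzero semidefinite invariant subspace.
-/

set_option autoImplicit false

open scoped InnerProductSpace

namespace Pool.Agent.Results.MP_8bdf74_an.OneSubspaceSuffices

variable {H : Type} [NormedAddCommGroup H] [InnerProductSpace ℂ H]

/-- The indefinite form `I(f, g) = (E f, g) - ((1 - E) f, g)`. -/
noncomputable def form (E : H →L[ℂ] H) (f g : H) : ℂ := ⟪E f, g⟫_ℂ - ⟪(1 - E) f, g⟫_ℂ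

/-- `b` is the adjoint of `a` with respect to the form. -/
def IsAdj (E a b : H →L[ℂ] H) : Prop := ∀ f g : H, form E (a f) g = form E f (b g)

/-- Every dual pair `N`, `P` which is invariant under `A` is contained in a maximal dual pair
`N'`, `P'` which is invariant under `A`. -/
def HasExtensions (E : H →L[ℂ] H) (A : Subalgebra ℂ (H →L[ℂ] H)) : Prop :=
  ∀ (N P : Submodule ℂ H),
    (∀ x ∈ P, 0 ≤ (form E x x).re) →
    (∀ y ∈ N, (form E y y).re ≤ 0) →
    (∀ x ∈ P, ∀ y ∈ N, form E x y = 0) →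
    (∀ a ∈ A, ∀ x ∈ N, a x ∈ N) →
    (∀ a ∈ A, ∀ x ∈ P, a x ∈ P) →
    ∃ N' P' : Submodule ℂ H, N ≤ N' ∧ P ≤ P' ∧
      (∀ x ∈ P', 0 ≤ (form E x x).re) ∧
      (∀ y ∈ N', (form E y y).re ≤ 0) ∧
      (∀ y : H, y ∈ N' ↔ ∀ x ∈ P', form E x y = 0) ∧
      (∀ x : H, x ∈ P' ↔ ∀ y ∈ N', form E x y = 0) ∧
      (∀ a ∈ A, ∀ x ∈ N', a x ∈ N') ∧
      (∀ a ∈ A, ∀ x ∈ P', a x ∈ P')

/-- There is a closed subspace different from `0` which is invariant under the operators in `B` and
on which the form is semidefinite. -/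
def HasSemidefinite (E : H →L[ℂ] H) (B : Set (H →L[ℂ] H)) : Prop :=
  ∃ S : Submodule ℂ H, S ≠ ⊥ ∧ IsClosed (S : Set H) ∧ (∀ b ∈ B, ∀ x ∈ S, b x ∈ S) ∧
    ((∀ x ∈ S, 0 ≤ (form E x x).re) ∨ (∀ x ∈ S, (form E x x).re ≤ 0))

/-- `A` is commutative and closed under adjoints with respect to the form of `E`. -/
def IsSetting (E : H →L[ℂ] H) (A : Subalgebra ℂ (H →L[ℂ] H)) : Prop :=
  (∀ a ∈ A, ∀ b ∈ A, a * b = b * a) ∧ (∀ a ∈ A, ∃ b ∈ A, IsAdj E a b)

/-- `B` is equal to its commutant, it contains no operator `q ≠ 0` with `q = q'` and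
`I(q x, x) ≥ 0` for all `x`, and no operator `c ≠ 0` with `c' c = 0`. -/
def IsReduced (E : H →L[ℂ] H) (B : Subalgebra ℂ (H →L[ℂ] H)) : Prop :=
  (∀ b : H →L[ℂ] H, (∀ a ∈ B, a * b = b * a) → b ∈ B) ∧
  (∀ q ∈ B, IsAdj E q q → (∀ x, 0 ≤ (form E (q x) x).re) → q = 0) ∧
  (∀ c ∈ B, ∀ c' ∈ B, IsAdj E c c' → c' * c = 0 → c = 0)

/-- `ρ` is a contractive representation of `A` on the space `V` with the form of `F`, which
respects adjoints. -/
structure IsContractive {V : Type} [NormedAddCommGroup V] [InnerProductSpace ℂ V]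
    (E : H →L[ℂ] H) (A : Subalgebra ℂ (H →L[ℂ] H)) (F : V →L[ℂ] V)
    (ρ : (H →L[ℂ] H) → (V →L[ℂ] V)) : Prop where
  one : ρ 1 = 1
  add : ∀ a ∈ A, ∀ b ∈ A, ρ (a + b) = ρ a + ρ b
  mul : ∀ a ∈ A, ∀ b ∈ A, ρ (a * b) = ρ a * ρ b
  smul : ∀ c : ℂ, ∀ a ∈ A, ρ (c • a) = c • ρ a
  adj : ∀ a ∈ A, ∀ b ∈ A, IsAdj E a b → IsAdj F (ρ a) (ρ b)
  norm : ∀ a ∈ A, ‖ρ a‖ ≤ ‖a‖

/-- `A` has a contractive representation on a space `V` different from `0` such that no closed
semidefinite subspace except `0` is invariant. -/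
def HasWildRepresentation (E : H →L[ℂ] H) (A : Subalgebra ℂ (H →L[ℂ] H)) : Prop :=
  ∃ (V : Type) (_ : NormedAddCommGroup V) (_ : InnerProductSpace ℂ V) (_ : CompleteSpace V)
    (F : V →L[ℂ] V) (ρ : (H →L[ℂ] H) → (V →L[ℂ] V)), F * F = F ∧ star F = F ∧
    Nontrivial V ∧ IsContractive E A F ρ ∧ ¬ HasSemidefinite F {b | ∃ a ∈ A, b = ρ a}

/-- If some dual pair invariant under `A` is not contained in a maximal dual pair invariant under
`A`, then `A` has a contractive representation on a space different from `0` such that no closed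
semidefinite subspace except `0` is invariant. -/
def NonextendableAreWild : Prop :=
  ∀ (H : Type) [NormedAddCommGroup H] [InnerProductSpace ℂ H] [CompleteSpace H] (E : H →L[ℂ] H)
    (A : Subalgebra ℂ (H →L[ℂ] H)), E * E = E → star E = E → IsSetting E A →
      ¬ HasExtensions E A → HasWildRepresentation E A

/-- The extension property holds for all commutative symmetric algebras. -/
def AllHaveExtensions : Prop :=
  ∀ (H : Type) [NormedAddCommGroup H] [InnerProductSpace ℂ H] [CompleteSpace H] (E : H →L[ℂ] H)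
    (A : Subalgebra ℂ (H →L[ℂ] H)), E * E = E → star E = E → IsSetting E A → HasExtensions E A

/-- Every reduced commutative symmetric algebra on a space different from `0` has a closed
semidefinite invariant subspace different from `0`. -/
def AllReducedHaveSemidefinite : Prop :=
  ∀ (V : Type) [NormedAddCommGroup V] [InnerProductSpace ℂ V] [CompleteSpace V] (F : V →L[ℂ] V)
    (B : Subalgebra ℂ (V →L[ℂ] V)), Nontrivial V → F * F = F → star F = F → IsSetting F B →
      IsReduced F B → HasSemidefinite F (B : Set (V →L[ℂ] V))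

lemma form_eq (E : H →L[ℂ] H) (f g : H) :
    form E f g = Pool.Agent.H91.PH.fm (Pool.Agent.H91.PH.Jm E) f g :=
  (Pool.Agent.H91.PH.fm_Jm E f g).symm

lemma isAdj_iff (E a b : H →L[ℂ] H) : IsAdj E a b ↔
    ∀ f g : H, Pool.Agent.H91.PH.fm (Pool.Agent.H91.PH.Jm E) (a f) g =
      Pool.Agent.H91.PH.fm (Pool.Agent.H91.PH.Jm E) f (b g) := by
  unfold IsAdj
  simp only [form_eq]

lemma hasExtensions_of (E : H →L[ℂ] H) (A : Subalgebra ℂ (H →L[ℂ] H))
    (h : ∀ N P : Submodule ℂ H, Pool.Agent.H91.PH.Dual (Pool.Agent.H91.PH.Jm E) A N P →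
      Pool.Agent.H91.PH.Solvable (Pool.Agent.H91.PH.Jm E) A N P) : HasExtensions E A := by
  intro N P h1 h2 h3 h4 h5
  simp only [form_eq] at h1 h2 h3 ⊢
  exact h N P ⟨h1, h2, h3, h4, h5⟩

lemma symm_of {E : H →L[ℂ] H} {A : Subalgebra ℂ (H →L[ℂ] H)}
    (h : IsSetting E A) : Pool.Agent.H91.PH.Symm (Pool.Agent.H91.PH.Jm E) A := by
  intro a ha
  obtain ⟨b, hb, hab⟩ := h.2 a ha
  exact ⟨b, hb, (isAdj_iff _ _ _).mp hab⟩

/-- Every nonzero space has a nonzero semidefinite invariant subspace, if the zero pair has an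
extension. -/
lemma hasSemidefinite_of [CompleteSpace H] [Nontrivial H] (E : H →L[ℂ] H)
    (A : Subalgebra ℂ (H →L[ℂ] H)) (h : HasExtensions E A) :
    HasSemidefinite E (A : Set (H →L[ℂ] H)) := by
  obtain ⟨N', P', -, -, h1, h2, h3, h4, h5, h6⟩ := h ⊥ ⊥ (by
    intro x hx
    rw [(Submodule.mem_bot ℂ).mp hx]
    simp [form]) (by
    intro x hx
    rw [(Submodule.mem_bot ℂ).mp hx]
    simp [form]) (by
    intro x hx y hy
    rw [(Submodule.mem_bot ℂ).mp hx]
    simp [form]) (by
    intro a _ x hx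
    rw [(Submodule.mem_bot ℂ).mp hx, map_zero]
    exact Submodule.zero_mem _) (by
    intro a _ x hx
    rw [(Submodule.mem_bot ℂ).mp hx, map_zero]
    exact Submodule.zero_mem _)
  have hcl : ∀ x : H, Continuous fun y => form E x y := by
    intro x
    unfold form
    fun_prop
  have hcr : ∀ y : H, Continuous fun x => form E x y := by
    intro x
    unfold form
    fun_prop
  by_cases hP : P' = ⊥
  · refine ⟨N', ?_, ?_, h5, Or.inr h2⟩
    · intro hN
      obtain ⟨z, hz⟩ := exists_ne (0 : H)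
      have h7 : z ∈ N' := by
        rw [h3]
        intro x hx
        rw [hP, Submodule.mem_bot] at hx
        rw [hx]
        simp [form]
      rw [hN, Submodule.mem_bot] at h7
      exact hz h7
    · have e : (N' : Set H) = ⋂ x ∈ P', {y | form E x y = 0} := by
        ext y
        simp only [SetLike.mem_coe, Set.mem_iInter, Set.mem_ofPred_eq]
        exact h3 y
      rw [e]
      exact isClosed_biInter fun x _ => isClosed_eq (hcl x) continuous_const
  · refine ⟨P', hP, ?_, h6, Or.inl h1⟩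
    have e : (P' : Set H) = ⋂ y ∈ N', {x | form E x y = 0} := by
      ext x
      simp only [SetLike.mem_coe, Set.mem_iInter, Set.mem_ofPred_eq]
      exact h4 x
    rw [e]
    exact isClosed_biInter fun y _ => isClosed_eq (hcr y) continuous_const

/-- (1) If some dual pair invariant under `A` is not contained in a maximal dual pair invariant
under `A`, then `A` has a contractive representation on a nonzero space such that no semidefinite
subspace except `0` is invariant. -/
lemma part_one [CompleteSpace H] (E : H →L[ℂ] H) (A : Subalgebra ℂ (H →L[ℂ] H))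
    (h1 : E * E = E) (h2 : star E = E) (hs : IsSetting E A) (hne : ¬ HasExtensions E A) :
    HasWildRepresentation E A := by
  have h3 : ∃ N P : Submodule ℂ H, Pool.Agent.H91.PH.Dual (Pool.Agent.H91.PH.Jm E) A N P ∧
      ¬ Pool.Agent.H91.PH.Solvable (Pool.Agent.H91.PH.Jm E) A N P := by
    by_contra hcon
    push Not at hcon
    exact hne (hasExtensions_of E A hcon)
  obtain ⟨N, P, hd, hns⟩ := h3
  obtain ⟨V, i1, i2, i3, F, ρ, ht⟩ :=
    Pool.Agent.H91.PH.exists_terminal h1 h2 (symm_of hs) hd hns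
  classical
  set σ : (H →L[ℂ] H) → (V →L[ℂ] V) := fun a => if h : a ∈ A then ρ ⟨a, h⟩ else 0 with hσ
  have e : ∀ a (h : a ∈ A), σ a = ρ ⟨a, h⟩ := fun a h => by
    rw [hσ]
    exact dif_pos h
  refine ⟨V, i1, i2, i3, F, σ, ht.idem, ht.star, ht.nontriv, ⟨?_, ?_, ?_, ?_, ?_, ?_⟩, ?_⟩
  · rw [e 1 A.one_mem]
    exact map_one ρ
  · intro a ha b hb
    rw [e _ (A.add_mem ha hb), e a ha, e b hb]
    exact map_add ρ ⟨a, ha⟩ ⟨b, hb⟩
  · intro a ha b hb
    rw [e _ (A.mul_mem ha hb), e a ha, e b hb]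
    exact map_mul ρ ⟨a, ha⟩ ⟨b, hb⟩
  · intro c a ha
    rw [e _ (A.smul_mem ha c), e a ha]
    exact map_smul ρ c ⟨a, ha⟩
  · intro a ha b hb hab
    rw [e a ha, e b hb]
    rw [isAdj_iff] at hab ⊢
    exact ht.adj ⟨a, ha⟩ ⟨b, hb⟩ hab
  · intro a ha
    rw [e a ha]
    exact ht.norm ⟨a, ha⟩
  · rintro ⟨S, hS, -, hinv, hsemi⟩
    simp only [form_eq] at hsemi
    refine hS (ht.semi S (fun a v hv => ?_) hsemi)
    have h4 := hinv (σ a) ⟨a, a.2, rfl⟩ v hv
    rwa [e a a.2] at h4

/-- (1) If some dual pair invariant under `A` is not contained in a maximal dual pair invariant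
under `A`, then `A` has a contractive representation on a nonzero space such that no semidefinite
subspace except `0` is invariant.  (2) All invariant dual pairs of all commutative symmetric
algebras are contained in invariant maximal dual pairs if and only if every reduced algebra on a
nonzero space has one semidefinite invariant subspace different from `0`. -/
theorem result :
    NonextendableAreWild ∧ (AllHaveExtensions ↔ AllReducedHaveSemidefinite) := by
  refine ⟨?_, ?_, ?_⟩
  · intro H _ _ _ E A h1 h2 hs hne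
    exact part_one E A h1 h2 hs hne
  · intro hq V _ _ _ F B hn h1 h2 hs _
    exact hasSemidefinite_of F B (hq V F B h1 h2 hs)
  · intro hex H _ _ _ E A e1 e2 hs
    refine hasExtensions_of E A fun N P hd => ?_
    refine Pool.Agent.H91.PH.solvable_of_existsSemi ?_ e1 e2 hs.1 (symm_of hs) hd
    intro V _ _ _ F B h1 h2 h3 h4 h5 h6 h7 h8
    obtain ⟨S, hS, -, hinv, hsemi⟩ := hex V F B h3 h1 h2 ⟨h4, fun a ha => by
      obtain ⟨b, hb, hab⟩ := h5 a ha
      exact ⟨b, hb, (isAdj_iff _ _ _).mpr hab⟩⟩ ⟨h6, fun q hq hqs hpos => by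
        rw [isAdj_iff] at hqs
        simp only [form_eq] at hpos
        exact h7 q hq hqs hpos, fun c hc c' hc' hcc h0 => by
        rw [isAdj_iff] at hcc
        exact h8 c hc c' hc' hcc h0⟩
    simp only [form_eq] at hsemi
    exact ⟨S, hS, hinv, hsemi⟩

end Pool.Agent.Results.MP_8bdf74_an.OneSubspaceSuffices
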