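import Pool.Agent.H91.PH.Gen

/-!
MP_8bdf74_an: invariant extension of dual pairs for algebras which are bounded or finite-dimensional
modulo the radical generated by the positive elements; algebras with finitely many commuting
definitizable generators.
-/

set_option autoImplicit false

open scoped InnerProductSpace

namespace Pool.Agent.Results.MP_8bdf74_an.PositiveRadical

variable {H : Type} [NormedAddCommGroup H] [InnerProductSpace ℂ H]

/-- The indefinite form `I(f, g) = (E f, g) - ((1 - E) f, g)`. -/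
noncomputable def form (E : H →L[ℂ] H) (f g : H) : ℂ := ⟪E f, g⟫_ℂ - ⟪(1 - E) f, g⟫_ℂ

/-- `b` is the adjoint of `a` with respect to the form. -/
def IsAdj (E a b : H →L[ℂ] H) : Prop := ∀ f g : H, form E (a f) g = form E f (b g)

/-- `R` is an ideal of `A`, it contains `c` whenever it contains `c' c`, where `c` and its adjoint
`c'` are in `A`, it contains every self-adjoint `q` in `A` with `I(q x, x) ≥ 0` for all `x`, and it
contains every `a` in `A` such that for some `C`, for all `x` and `y`, the number `I(a x, y)` is a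
limit of numbers `I(r x, y)` with `r` in `R` and `‖r‖ ≤ C`. -/
structure IsRadical (E : H →L[ℂ] H) (A : Subalgebra ℂ (H →L[ℂ] H)) (R : Set (H →L[ℂ] H)) :
    Prop where
  zero : 0 ∈ R
  add : ∀ a ∈ R, ∀ b ∈ R, a + b ∈ R
  mul : ∀ a ∈ A, ∀ b ∈ R, a * b ∈ R
  root : ∀ c ∈ A, ∀ c' ∈ A, IsAdj E c c' → c' * c ∈ R → c ∈ R
  pos : ∀ q ∈ A, IsAdj E q q → (∀ x, 0 ≤ (form E (q x) x).re) → q ∈ R
  lim : ∀ a ∈ A, ∀ C : ℝ, (∀ x y : H, ∀ ε > 0, ∃ r ∈ R, ‖r‖ ≤ C ∧
    ‖form E (r x) y - form E (a x) y‖ < ε) → a ∈ R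

/-- The radical of `A`: the intersection of all sets `R` as in `IsRadical`. -/
def InRadical (E : H →L[ℂ] H) (A : Subalgebra ℂ (H →L[ℂ] H)) (a : H →L[ℂ] H) : Prop :=
  ∀ R : Set (H →L[ℂ] H), IsRadical E A R → a ∈ R

/-- Every dual pair `N`, `P` which is invariant under `A` is contained in a maximal dual pair
`N'`, `P'` which is invariant under `A`. -/
def HasExtensions (E : H →L[ℂ] H) (A : Subalgebra ℂ (H →L[ℂ] H)) : Prop :=
  ∀ (N P : Submodule ℂ H),
    (∀ x ∈ P, 0 ≤ (form E x x).re) →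
    (∀ y ∈ N, (form E y y).re ≤ 0) →
    (∀ x ∈ P, ∀ y ∈ N, form E x y = 0) →
    (∀ a ∈ A, ∀ x ∈ N, a x ∈ N) →
    (∀ a ∈ A, ∀ x ∈ P, a x ∈ P) →
    ∃ N' P' : Submodule ℂ H, N ≤ N' ∧ P ≤ P' ∧
      (∀ x ∈ P', 0 ≤ (form E x x).re) ∧
      (∀ y ∈ N', (form E y y).re ≤ 0) ∧
      (∀ y : H, y ∈ N' ↔ ∀ x ∈ P', form E x y = 0) ∧
      (∀ x : H, x ∈ P' ↔ ∀ y ∈ N', form E x y = 0) ∧
      (∀ a ∈ A, ∀ x ∈ N', a x ∈ N') ∧
      (∀ a ∈ A, ∀ x ∈ P', a x ∈ P')

lemma form_eq (E : H →L[ℂ] H) (f g : H) :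
    form E f g = Pool.Agent.H91.PH.fm (Pool.Agent.H91.PH.Jm E) f g :=
  (Pool.Agent.H91.PH.fm_Jm E f g).symm

lemma isAdj_iff (E a b : H →L[ℂ] H) : IsAdj E a b ↔
    ∀ f g : H, Pool.Agent.H91.PH.fm (Pool.Agent.H91.PH.Jm E) (a f) g =
      Pool.Agent.H91.PH.fm (Pool.Agent.H91.PH.Jm E) f (b g) := by
  unfold IsAdj
  simp only [form_eq]

lemma isRadical_iff (E : H →L[ℂ] H) (A : Subalgebra ℂ (H →L[ℂ] H)) (R : Set (H →L[ℂ] H)) :
    IsRadical E A R ↔ Pool.Agent.H91.PH.IsRadP (Pool.Agent.H91.PH.Jm E) A R := by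
  have e : ∀ (r a : H →L[ℂ] H) (x y : H), form E (r x) y - form E (a x) y =
      Pool.Agent.H91.PH.fm (Pool.Agent.H91.PH.Jm E) ((r - a) x) y := by
    intro r a x y
    rw [form_eq, form_eq, ← Pool.Agent.H91.PH.fm_sub_left]
    rfl
  constructor
  · intro h
    refine ⟨h.zero, h.add, h.mul, fun c hc c' hc' hs => h.root c hc c' hc' ((isAdj_iff _ _ _).mpr hs),
      fun q hq hs hp => h.pos q hq ((isAdj_iff _ _ _).mpr hs) ?_, fun a ha C hl => h.lim a ha C ?_⟩
    · simpa only [form_eq] using hp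
    · simpa only [e] using hl
  · intro h
    refine ⟨h.zero, h.add, h.mul, fun c hc c' hc' hs => h.root c hc c' hc' ((isAdj_iff _ _ _).mp hs),
      fun q hq hs hp => h.pos q hq ((isAdj_iff _ _ _).mp hs) ?_, fun a ha C hl => h.lim a ha C ?_⟩
    · simpa only [form_eq] using hp
    · simpa only [e] using hl

lemma inRadical_iff (E : H →L[ℂ] H) (A : Subalgebra ℂ (H →L[ℂ] H)) (a : H →L[ℂ] H) :
    InRadical E A a ↔ Pool.Agent.H91.PH.RadP (Pool.Agent.H91.PH.Jm E) A a := by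
  unfold InRadical Pool.Agent.H91.PH.RadP
  simp only [isRadical_iff]

lemma hasExtensions_of (E : H →L[ℂ] H) (A : Subalgebra ℂ (H →L[ℂ] H))
    (h : ∀ N P : Submodule ℂ H, Pool.Agent.H91.PH.Dual (Pool.Agent.H91.PH.Jm E) A N P →
      Pool.Agent.H91.PH.Solvable (Pool.Agent.H91.PH.Jm E) A N P) : HasExtensions E A := by
  intro N P h1 h2 h3 h4 h5
  simp only [form_eq] at h1 h2 h3 ⊢
  exact h N P ⟨h1, h2, h3, h4, h5⟩

/-- Let `A` be a commutative algebra of bounded operators which is closed under adjoints with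
respect to the form.  If the operators `exp (i s)`, `s` a self-adjoint element of `A`, are bounded
modulo the radical of `A`, or if `A` is finite-dimensional modulo the radical of `A`, or if `A` is
generated by finitely many operators `s` such that the radical contains `p(s)` for some nonzero
polynomial `p` (for instance by finitely many commuting definitizable operators), then every
invariant dual pair is contained in an invariant maximal dual pair. -/
theorem result (H : Type) [NormedAddCommGroup H] [InnerProductSpace ℂ H] [CompleteSpace H]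
    (E : H →L[ℂ] H) (hE : E * E = E) (hE' : star E = E) (A : Subalgebra ℂ (H →L[ℂ] H))
    (hc : ∀ a ∈ A, ∀ b ∈ A, a * b = b * a) (hA : ∀ a ∈ A, ∃ b ∈ A, IsAdj E a b) :
    ((∃ C : ℝ, ∀ s ∈ A, IsAdj E s s → ∃ r : H →L[ℂ] H, InRadical E A r ∧
        ‖NormedSpace.exp (Complex.I • s) + r‖ ≤ C) → HasExtensions E A) ∧
    ((∃ F : Submodule ℂ (H →L[ℂ] H), FiniteDimensional ℂ F ∧
        ∀ a ∈ A, ∃ b ∈ F, b ∈ A ∧ InRadical E A (a - b)) → HasExtensions E A) ∧
    ((∃ S : Set (H →L[ℂ] H), S.Finite ∧ A = Algebra.adjoin ℂ S ∧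
        ∀ s ∈ S, ∃ p : Polynomial ℂ, p ≠ 0 ∧ InRadical E A (Polynomial.aeval s p)) →
      HasExtensions E A) := by
  have hA' : Pool.Agent.H91.PH.Symm (Pool.Agent.H91.PH.Jm E) A := by
    intro a ha
    obtain ⟨b, hb, hab⟩ := hA a ha
    exact ⟨b, hb, (isAdj_iff _ _ _).mp hab⟩
  refine ⟨?_, ?_, ?_⟩
  · rintro ⟨C, hC⟩
    refine hasExtensions_of E A fun N P h => ?_
    refine Pool.Agent.H91.PH.main_expP hE hE' hc hA' (C := C) ?_ h
    intro s hs hsa
    obtain ⟨r, hr, hrC⟩ := hC s hs ((isAdj_iff _ _ _).mpr hsa)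
    exact ⟨r, (inRadical_iff _ _ _).mp hr, hrC⟩
  · rintro ⟨F, hF, hFA⟩
    refine hasExtensions_of E A fun N P h => ?_
    refine Pool.Agent.H91.PH.main_finP hE hE' hc hA' F ?_ h
    intro a ha
    obtain ⟨b, hb, hbA, hab⟩ := hFA a ha
    exact ⟨b, hb, hbA, (inRadical_iff _ _ _).mp hab⟩
  · rintro ⟨S, hS, hgen, hp⟩
    refine hasExtensions_of E A fun N P h => ?_
    refine Pool.Agent.H91.PH.main_gen hE hE' hc hA' hS hgen ?_ h
    intro s hs
    obtain ⟨p, hp0, hpr⟩ := hp s hs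
    exact ⟨p, hp0, (inRadical_iff _ _ _).mp hpr⟩

end Pool.Agent.Results.MP_8bdf74_an.PositiveRadical
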